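import Mathlib

set_option autoImplicit false

namespace Pool.Agent.H150R3.LocBip

/-- local bipartiteness -/
def LB {V : Type} (G : SimpleGraph V) : Prop :=
  ∀ v : V, (G.induce (G.neighborSet v)).Colorable 2

/-- codes: 0 = no edge, 1 = all edges, 2 = edge iff same index, 3 = edge iff different index.
Classes: 0 R0, 1 P1, 2 Q1, 3 P2, 4 Q2, 5 e, 6 r, 7 c, 8 d. -/
def code (a b : Fin 9) : ℕ :=
  (![![0,1,1,1,1,0,0,1,1],
     ![1,0,1,0,0,0,1,0,0],
     ![1,1,0,0,0,1,1,1,0],
     ![1,0,0,0,1,0,1,0,0],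
     ![1,0,0,1,0,1,1,0,1],
     ![0,0,1,0,1,0,1,0,0],
     ![0,1,1,1,1,1,0,2,3],
     ![1,0,1,0,0,0,2,0,2],
     ![1,0,0,0,1,0,3,2,0]] : Fin 9 → Fin 9 → ℕ) a b

def adjB (a b : Fin 9) (e : Bool) : Bool :=
  (code a b == 1) || (code a b == 2 && e) || (code a b == 3 && !e)

theorem adjB_symm : ∀ (a b : Fin 9) (e : Bool), adjB a b e = adjB b a e := by decide

theorem adjB_irrefl : ∀ (a : Fin 9), adjB a a true = false := by decide

def col (a b : Fin 9) : Bool :=
  (![![false,true,false,false,true,false,false,true,false],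
     ![false,false,true,false,false,false,false,false,false],
     ![false,true,false,false,false,true,false,true,false],
     ![false,false,false,false,true,false,false,false,false],
     ![false,false,false,true,false,true,false,false,true],
     ![false,false,true,false,true,false,false,false,false],
     ![false,true,false,true,false,true,false,true,true],
     ![false,false,true,false,false,false,false,false,true],
     ![false,false,false,false,true,false,false,true,false]] : Fin 9 → Fin 9 → Bool) a b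

/-- e1 = (i = j), e2 = (j = k), e3 = (i = k) -/
def consistent (e1 e2 e3 : Bool) : Bool :=
  !(e1 && e2 && !e3) && !(e1 && !e2 && e3) && !(!e1 && e2 && e3)

theorem col_ok : ∀ (a b c : Fin 9) (e1 e2 e3 : Bool), consistent e1 e2 e3 = true →
    adjB a b e1 = true → adjB a c e3 = true → adjB b c e2 = true → col a b ≠ col a c := by
  decide +kernel

def Gr (M : ℕ) : SimpleGraph (Fin 9 × Fin M) where
  Adj x y := adjB x.1 y.1 (decide (x.2 = y.2)) = true
  symm := ⟨fun x y h => by
    rw [adjB_symm]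
    have : decide (y.2 = x.2) = decide (x.2 = y.2) := by
      rw [decide_eq_decide]; exact eq_comm
    rw [this]; exact h⟩
  loopless := ⟨fun x h => by
    have h' : adjB x.1 x.1 (decide (x.2 = x.2)) = true := h
    rw [decide_eq_true rfl, adjB_irrefl] at h'
    exact absurd h' (by decide)⟩

theorem Gr_LB (M : ℕ) : LB (Gr M) := by
  intro v
  have : (Gr M).induce ((Gr M).neighborSet v) |>.Coloring Bool := by
    refine SimpleGraph.Coloring.mk (fun x => col v.1 x.1.1) ?_
    rintro ⟨x, hx⟩ ⟨y, hy⟩ hxy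
    have hx' : adjB v.1 x.1 (decide (v.2 = x.2)) = true := hx
    have hy' : adjB v.1 y.1 (decide (v.2 = y.2)) = true := hy
    have hxy' : adjB x.1 y.1 (decide (x.2 = y.2)) = true := hxy
    refine col_ok v.1 x.1 y.1 _ _ _ ?_ hx' hy' hxy'
    unfold consistent
    by_cases h1 : v.2 = x.2 <;> by_cases h2 : x.2 = y.2 <;> by_cases h3 : v.2 = y.2 <;>
      simp_all
  have h2 := this.colorable
  simpa using h2

/-- In a locally bipartite graph there is no 5-wheel. -/
theorem no_wheel {V : Type} {G : SimpleGraph V} (hG : LB G) (w a b c d e : V)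
    (ha : G.Adj w a) (hb : G.Adj w b) (hc : G.Adj w c) (hd : G.Adj w d) (he : G.Adj w e)
    (hab : G.Adj a b) (hbc : G.Adj b c) (hcd : G.Adj c d) (hde : G.Adj d e) (hea : G.Adj e a) :
    False := by
  obtain ⟨C⟩ := hG w
  have h1 := C.valid (v := ⟨a, ha⟩) (w := ⟨b, hb⟩) hab
  have h2 := C.valid (v := ⟨b, hb⟩) (w := ⟨c, hc⟩) hbc
  have h3 := C.valid (v := ⟨c, hc⟩) (w := ⟨d, hd⟩) hcd
  have h4 := C.valid (v := ⟨d, hd⟩) (w := ⟨e, he⟩) hde
  have h5 := C.valid (v := ⟨e, he⟩) (w := ⟨a, ha⟩) hea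
  generalize C ⟨a, ha⟩ = x1 at *
  generalize C ⟨b, hb⟩ = x2 at *
  generalize C ⟨c, hc⟩ = x3 at *
  generalize C ⟨d, hd⟩ = x4 at *
  generalize C ⟨e, he⟩ = x5 at *
  revert x1 x2 x3 x4 x5
  decide

/-- the forced non-adjacency in every locally bipartite extension -/
theorem forced {M : ℕ} {G : SimpleGraph (Fin 9 × Fin M)} (hle : Gr M ≤ G) (hG : LB G)
    (k l : Fin M) (hkl : l ≠ k) : ¬ G.Adj (6, l) (7, k) := by
  intro h
  -- centre r_l, rim c_k, d_k, Q2, e, Q1
  have key : ∀ (a b : Fin 9) (i j : Fin M), adjB a b (decide (i = j)) = true →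
      G.Adj (a, i) (b, j) := fun a b i j hh => hle hh
  refine no_wheel hG (6, l) (7, k) (8, k) (4, k) (5, k) (2, k) h ?_ ?_ ?_ ?_ ?_ ?_ ?_ ?_ ?_ <;>
  · apply key
    simp [hkl, adjB, code]

theorem not_twins {M : ℕ} {G : SimpleGraph (Fin 9 × Fin M)} (hle : Gr M ≤ G) (hG : LB G)
    (k l : Fin M) (hkl : l ≠ k) : G.neighborSet (6, k) ≠ G.neighborSet (6, l) := by
  intro h
  have h1 : ((7, k) : Fin 9 × Fin M) ∈ G.neighborSet (6, k) := by
    apply hle
    show adjB 6 7 (decide (k = k)) = true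
    simp [adjB, code]
  rw [h] at h1
  exact forced hle hG k l hkl h1

def W (a : Fin 9) : ℝ := (![350,65,210,65,210,1,100,1,1] : Fin 9 → ℝ) a

theorem W_pos (a : Fin 9) : 0 < W a := by
  unfold W
  fin_cases a <;> simp

theorem W_total (M : ℕ) : ∑ x : Fin 9 × Fin M, W x.1 = 1003 * M := by
  rw [Fintype.sum_prod_type]
  simp only [Finset.sum_const, Finset.card_univ, Fintype.card_fin, nsmul_eq_mul]
  simp only [Fin.sum_univ_succ, W]
  simp
  ring

open scoped Classical in
theorem deg_lower {M : ℕ} {G : SimpleGraph (Fin 9 × Fin M)} (hle : Gr M ≤ G)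
    (v : Fin 9 × Fin M) : 517 * (M : ℝ) ≤ ∑ u ∈ Finset.univ.filter (G.Adj v), W u.1 := by
  have h1 : ∑ u : Fin 9 × Fin M, (if code v.1 u.1 = 1 then W u.1 else 0) ≤
      ∑ u ∈ Finset.univ.filter (G.Adj v), W u.1 := by
    rw [Finset.sum_filter]
    refine Finset.sum_le_sum fun u _ => ?_
    by_cases h : code v.1 u.1 = 1
    · have : G.Adj v u := by
        apply hle
        show adjB v.1 u.1 _ = true
        simp [adjB, h]
      rw [if_pos h, if_pos this]
    · rw [if_neg h]
      split_ifs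
      · exact (W_pos _).le
      · exact le_rfl
  refine le_trans ?_ h1
  rw [Fintype.sum_prod_type]
  simp only [Finset.sum_const, Finset.card_univ, Fintype.card_fin, nsmul_eq_mul]
  rw [← Finset.mul_sum]
  have h2 : (517 : ℝ) ≤ ∑ b : Fin 9, (if code v.1 b = 1 then W b else 0) := by
    obtain ⟨a, i⟩ := v
    fin_cases a <;> simp [Fin.sum_univ_succ, code, W] <;> norm_num
  have hM : (0 : ℝ) ≤ M := by positivity
  nlinarith

end Pool.Agent.H150R3.LocBip
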