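import Mathlib
import Pool.Agent.H150R3.LocBip

set_option autoImplicit false

namespace Pool.Agent.H150R3.LocBip

/-- every locally bipartite graph on a finite vertex set lies in a maximal one -/
theorem exists_max {V : Type} [Finite V] (G : SimpleGraph V) (hG : LB G) :
    ∃ G' : SimpleGraph V, G ≤ G' ∧ LB G' ∧ ∀ G'' : SimpleGraph V, G' ≤ G'' → LB G'' → G'' = G' := by
  have hfin : Finite (SimpleGraph V) := inferInstance
  have hne : ({H : SimpleGraph V | LB H}).Finite := Set.toFinite _
  obtain ⟨G', h1, h2⟩ := hne.exists_le_maximal (a := G) hG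
  exact ⟨G', h1, h2.1, fun G'' h3 h4 => le_antisymm (h2.2 h4 h3) h3⟩

/-- twin relation -/
def twins {V : Type} (G : SimpleGraph V) : Setoid V where
  r u v := G.neighborSet u = G.neighborSet v
  iseqv := ⟨fun _ => rfl, fun h => h.symm, fun h1 h2 => h1.trans h2⟩

theorem twins_adj {V : Type} {G : SimpleGraph V} {u v w : V}
    (h : G.neighborSet u = G.neighborSet v) : G.Adj u w ↔ G.Adj v w := by
  rw [← SimpleGraph.mem_neighborSet, h, SimpleGraph.mem_neighborSet]

/-- the quotient graph -/
def quot {V : Type} (G : SimpleGraph V) : SimpleGraph (Quotient (twins G)) where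
  Adj := fun a b => Quotient.liftOn₂ a b G.Adj (by
    intro a b a' b' h1 h2
    have h1' : G.neighborSet a = G.neighborSet a' := h1
    have h2' : G.neighborSet b = G.neighborSet b' := h2
    apply propext
    rw [twins_adj h1', G.adj_comm a' b, twins_adj h2', G.adj_comm])
  symm := ⟨fun a b => Quotient.inductionOn₂ a b fun x y h => (G.adj_symm h : G.Adj y x)⟩
  loopless := ⟨fun a => Quotient.inductionOn a fun x h => G.loopless.irrefl x h⟩

theorem quot_adj {V : Type} (G : SimpleGraph V) (u v : V) :
    (quot G).Adj (Quotient.mk (twins G) u) (Quotient.mk (twins G) v) ↔ G.Adj u v := Iff.rfl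

theorem quot_LB {V : Type} (G : SimpleGraph V) (hG : LB G) : LB (quot G) := by
  intro q
  induction q using Quotient.inductionOn with
  | h v =>
  obtain ⟨C⟩ := hG v
  have hadj : ∀ x : Quotient (twins G), (quot G).Adj (Quotient.mk _ v) x → G.Adj v x.out := by
    intro x hx
    have : (quot G).Adj (Quotient.mk _ v) (Quotient.mk _ x.out) := by
      rw [Quotient.out_eq]; exact hx
    exact this
  refine ⟨SimpleGraph.Coloring.mk (fun x => C ⟨x.1.out, hadj x.1 x.2⟩) ?_⟩
  rintro ⟨x, hx⟩ ⟨y, hy⟩ hxy
  have hxy' : (quot G).Adj x y := hxy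
  have : (quot G).Adj (Quotient.mk _ x.out) (Quotient.mk _ y.out) := by
    rw [Quotient.out_eq, Quotient.out_eq]; exact hxy'
  exact C.valid (v := ⟨x.out, hadj x hx⟩) (w := ⟨y.out, hadj y hy⟩) this

theorem quot_max {V : Type} (G : SimpleGraph V)
    (hmax : ∀ G'' : SimpleGraph V, G ≤ G'' → LB G'' → G'' = G)
    (G' : SimpleGraph (Quotient (twins G))) (hle : quot G ≤ G') (hLB : LB G') : G' = quot G := by
  have h1 : G ≤ G'.comap (Quotient.mk (twins G)) := by
    intro u v h
    exact hle (show (quot G).Adj (Quotient.mk _ u) (Quotient.mk _ v) from h)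
  have h2 : LB (G'.comap (Quotient.mk (twins G))) := by
    intro v
    obtain ⟨C⟩ := hLB (Quotient.mk _ v)
    refine ⟨SimpleGraph.Coloring.mk (fun x => C ⟨Quotient.mk _ x.1, x.2⟩) ?_⟩
    rintro ⟨x, hx⟩ ⟨y, hy⟩ hxy
    exact C.valid (v := ⟨Quotient.mk _ x, hx⟩) (w := ⟨Quotient.mk _ y, hy⟩) hxy
  have h3 := hmax _ h1 h2
  ext a b
  induction a using Quotient.inductionOn with
  | h u =>
  induction b using Quotient.inductionOn with
  | h v =>
  rw [quot_adj]
  have h5 : (G'.comap (Quotient.mk (twins G))).Adj u v ↔ G.Adj u v := by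
    conv_rhs => rw [← h3]
  exact h5

theorem quot_twinfree {V : Type} (G : SimpleGraph V) (a b : Quotient (twins G))
    (h : (quot G).neighborSet a = (quot G).neighborSet b) : a = b := by
  induction a using Quotient.inductionOn with
  | h u =>
  induction b using Quotient.inductionOn with
  | h v =>
  apply Quotient.sound
  show G.neighborSet u = G.neighborSet v
  ext w
  have : (Quotient.mk (twins G) w ∈ (quot G).neighborSet (Quotient.mk _ u)) ↔
      (Quotient.mk (twins G) w ∈ (quot G).neighborSet (Quotient.mk _ v)) := by rw [h]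
  exact this

open scoped Classical in
theorem quot_weight {V : Type} [Fintype V] (G : SimpleGraph V) (ω : V → ℝ)
    (c : ℝ) (hω : ∀ v, 0 < ω v)
    (hdeg : ∀ v : V, c * (∑ u, ω u) < ∑ u ∈ Finset.univ.filter (G.Adj v), ω u) :
    ∃ ω' : Quotient (twins G) → ℝ, (∀ v, 0 < ω' v) ∧
      ∀ v, c * (∑ u, ω' u) < ∑ u ∈ Finset.univ.filter ((quot G).Adj v), ω' u := by
  refine ⟨fun q => ∑ v ∈ Finset.univ.filter (fun v => Quotient.mk (twins G) v = q), ω v, ?_, ?_⟩
  · intro q
    apply Finset.sum_pos (fun v _ => hω v)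
    refine ⟨q.out, ?_⟩
    simp
  · intro q
    induction q using Quotient.inductionOn with
    | h v =>
    have h1 : ∑ q : Quotient (twins G), ∑ v ∈ Finset.univ.filter
        (fun v => Quotient.mk (twins G) v = q), ω v = ∑ v, ω v :=
      Finset.sum_fiberwise Finset.univ (fun v => Quotient.mk (twins G) v) ω
    have h2 : ∑ q ∈ Finset.univ.filter ((quot G).Adj (Quotient.mk _ v)), ∑ v ∈ Finset.univ.filter
        (fun v => Quotient.mk (twins G) v = q), ω v =
        ∑ u ∈ Finset.univ.filter (G.Adj v), ω u := by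
      have h3 : ∀ q ∈ Finset.univ.filter ((quot G).Adj (Quotient.mk _ v)),
          ∑ u ∈ Finset.univ.filter (fun u => Quotient.mk (twins G) u = q), ω u =
          ∑ u ∈ (Finset.univ.filter (G.Adj v)).filter
            (fun u => Quotient.mk (twins G) u = q), ω u := by
        intro q hq
        congr 1
        ext u
        simp only [Finset.mem_filter, Finset.mem_univ, true_and]
        constructor
        · intro h
          refine ⟨?_, h⟩
          rw [Finset.mem_filter] at hq
          rw [← h] at hq
          exact hq.2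
        · exact fun h => h.2
      rw [Finset.sum_congr rfl h3]
      apply Finset.sum_fiberwise_of_maps_to
      intro u hu
      rw [Finset.mem_filter] at hu ⊢
      exact ⟨Finset.mem_univ _, hu.2⟩
    rw [h1, h2]
    exact hdeg v

open scoped Classical in
theorem main :
    ¬ (∀ c : ℝ, 1 / 2 < c → ∃ N : ℕ, ∀ (V : Type) [Fintype V] (G : SimpleGraph V),
      (∀ v : V, (G.induce (G.neighborSet v)).Colorable 2) →
      (∀ G' : SimpleGraph V, G ≤ G' →
        (∀ v : V, (G'.induce (G'.neighborSet v)).Colorable 2) → G' = G) →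
      (∀ u v : V, G.neighborSet u = G.neighborSet v → u = v) →
      (∃ ω : V → ℝ, (∀ v, 0 < ω v) ∧
        ∀ v : V, c * (∑ u, ω u) < ∑ u ∈ Finset.univ.filter (G.Adj v), ω u) →
      Fintype.card V ≤ N) := by
  intro H
  obtain ⟨N, hN⟩ := H (51 / 100) (by norm_num)
  obtain ⟨G, hle, hLB, hmax⟩ := exists_max (Gr (N + 1)) (Gr_LB (N + 1))
  have hω := quot_weight G (fun v => W v.1) (51 / 100) (fun v => W_pos v.1) (by
    intro v
    have h1 := deg_lower hle v
    have h2 := W_total (N + 1)
    rw [h2]
    refine lt_of_lt_of_le ?_ h1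
    push_cast
    have : (0 : ℝ) ≤ N := by positivity
    nlinarith)
  have hcard := hN (Quotient (twins G)) (quot G) (quot_LB G hLB) (quot_max G hmax)
    (quot_twinfree G) hω
  have hinj : Function.Injective (fun k : Fin (N + 1) =>
      Quotient.mk (twins G) ((6, k) : Fin 9 × Fin (N + 1))) := by
    intro k l hkl
    by_contra hne
    have h3 : G.neighborSet (6, k) = G.neighborSet (6, l) := Quotient.exact hkl
    exact not_twins hle hLB k l (Ne.symm hne) h3
  have h4 := Fintype.card_le_of_injective _ hinj
  rw [Fintype.card_fin] at h4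
  omega

end Pool.Agent.H150R3.LocBip
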